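import Pool.Agent.J6H40.Benes.DeBruijn
import Pool.Agent.J6H40.Benes.Rest

/-!
# The Beneš conjecture fails in every degree `k ≥ 2`, with an exponential gap

For all `k ≥ 2` and `f ≥ 3` there is a simple `k`-regular ordered 2-stage graph `L` with
`F(L) = f` and `R(L) ≥ k ^ ⌈f/2⌉`; for all `k ≥ 3` there is one with `F(L) = 2` and
`R(L) ≥ k`.  Hence, for a degree `k ≥ 1`, the conjecture holds for all simple `k`-regular
graphs only if `k = 1`, and, for `m ≥ 1`, it holds for all simple regular graphs and this `m`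
only if `m = 1`; both exceptional cases are true.

The graphs: vertices are pairs (bit, word of length `d`) over a `k`-letter alphabet; an edge
shifts the word and appends a letter, and flips the bit exactly when a fixed pattern
`0…01` appears at the end.
-/

namespace Pool.Agent.Results.MP_dc8297_co.EveryDegreeExponentialGap

open Pool.Agent.J6H40.Benes

lemma part1 (k F : ℕ) (hk : 2 ≤ k) (hF : 3 ≤ F) : ∃ n : ℕ, n = 2 * k ^ (F / 2) ∧
    ∃ L : TwoStage (Fin n), IsSimple L ∧ IsRegular L k ∧ HasF L F ∧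
      ∀ m, 1 ≤ m → m < k ^ ((F + 1) / 2) → ¬ Rearrangeable L m := by
  obtain ⟨q, rfl⟩ : ∃ q, k = q + 2 := ⟨k - 2, by omega⟩
  rcases Nat.even_or_odd' F with ⟨l, rfl | rfl⟩
  · obtain ⟨e, rfl⟩ : ∃ e, l = e + 1 := ⟨l - 1, by omega⟩
    obtain ⟨n, hn, L, h1, h2, h3, h4⟩ := DB_final q e 1 (by omega)
    have e1 : 2 * e + 3 - 1 = 2 * (e + 1) := by omega
    have e2 : e + 2 - 1 = (2 * (e + 1) + 1) / 2 := by omega
    have e3 : 2 * (e + 1) / 2 = e + 1 := by omega
    rw [e1] at h3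
    rw [e2] at h4
    rw [e3]
    exact ⟨n, hn, L, h1, h2, h3, h4⟩
  · obtain ⟨e, rfl⟩ : ∃ e, l = e + 1 := ⟨l - 1, by omega⟩
    obtain ⟨n, hn, L, h1, h2, h3, h4⟩ := DB_final q e 0 (by omega)
    have e1 : 2 * e + 3 - 0 = 2 * (e + 1) + 1 := by omega
    have e2 : e + 2 - 0 = (2 * (e + 1) + 1 + 1) / 2 := by omega
    have e3 : (2 * (e + 1) + 1) / 2 = e + 1 := by omega
    rw [e1] at h3
    rw [e2] at h4
    rw [e3]
    exact ⟨n, hn, L, h1, h2, h3, h4⟩

lemma part2 (k : ℕ) (hk : 3 ≤ k) : ∃ n : ℕ, n = 2 * k ∧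
    ∃ L : TwoStage (Fin n), IsSimple L ∧ IsRegular L k ∧ HasF L 2 ∧
      ∀ m, 1 ≤ m → m < k → ¬ Rearrangeable L m := by
  obtain ⟨r, rfl⟩ : ∃ r, k = r + 3 := ⟨k - 3, by omega⟩
  exact BL_final r

/-- Every degree `k ≥ 2`: `R(L) ≥ k ^ ⌈F(L)/2⌉` for every prescribed value `F(L) ≥ 3`;
`F(L) = 2` with `R(L) ≥ k` for `k ≥ 3`; the conjecture for degree `k` is true iff `k = 1`;
the conjecture for the parameter `m` is true iff `m = 1`. -/
theorem result :
    (∀ k F : ℕ, 2 ≤ k → 3 ≤ F → ∃ n : ℕ, n = 2 * k ^ (F / 2) ∧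
      ∃ L : TwoStage (Fin n), IsSimple L ∧ IsRegular L k ∧ HasF L F ∧
        ∀ m, 1 ≤ m → m < k ^ ((F + 1) / 2) → ¬ Rearrangeable L m) ∧
    (∀ k : ℕ, 3 ≤ k → ∃ n : ℕ, n = 2 * k ∧
      ∃ L : TwoStage (Fin n), IsSimple L ∧ IsRegular L k ∧ HasF L 2 ∧
        ∀ m, 1 ≤ m → m < k → ¬ Rearrangeable L m) ∧
    (∀ k : ℕ, 1 ≤ k →
      ((∀ (n : ℕ) (L : TwoStage (Fin n)) (m : ℕ), 1 ≤ n → 1 ≤ m → IsSimple L →
          IsRegular L k → ExternallyConnected L m → Rearrangeable L (2 * m)) ↔ k = 1)) ∧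
    (∀ m : ℕ, 1 ≤ m →
      ((∀ (n : ℕ) (L : TwoStage (Fin n)) (k : ℕ), 1 ≤ n → 1 ≤ k → IsSimple L →
          IsRegular L k → ExternallyConnected L m → Rearrangeable L (2 * m)) ↔ m = 1)) := by
  refine ⟨part1, part2, ?_, ?_⟩
  · intro k hk
    constructor
    · intro h
      by_contra hk1
      rcases Nat.lt_or_ge k 3 with h3 | h3
      · have hk2 : k = 2 := by omega
        subst hk2
        obtain ⟨n, hn, L, h1, h2, ⟨_, h4, _⟩, h5⟩ := part1 2 7 (by omega) (by omega)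
        refine h5 (2 * 7) (by norm_num) (by norm_num) (h n L 7 ?_ (by norm_num) h1 h2 h4)
        rw [hn]; norm_num
      · obtain ⟨n, hn, L, h1, h2, ⟨_, h4, _⟩, h5⟩ := part1 k 3 (by omega) (by omega)
        have h9 : 2 * 3 < k ^ ((3 + 1) / 2) := by
          have : (3 + 1) / 2 = 2 := rfl
          rw [this]
          nlinarith
        refine h5 (2 * 3) (by norm_num) h9 (h n L 3 ?_ (by norm_num) h1 h2 h4)
        rw [hn]
        have : 0 < k ^ (3 / 2) := Nat.pow_pos (by omega)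
        omega
    · rintro rfl
      intro n L m _ _ _ hreg hext
      exact deg_one n L hreg m hext _
  · intro m hm
    constructor
    · intro h
      by_contra hm1
      rcases Nat.lt_or_ge m 3 with h3 | h3
      · have hm2 : m = 2 := by omega
        subst hm2
        obtain ⟨n, hn, L, h1, h2, ⟨_, h4, _⟩, h5⟩ := part2 5 (by norm_num)
        refine h5 (2 * 2) (by norm_num) (by norm_num) (h n L 5 ?_ (by norm_num) h1 h2 h4)
        rw [hn]; norm_num
      · obtain ⟨n, hn, L, h1, h2, ⟨_, h4, _⟩, h5⟩ := part1 (2 * m + 1) m (by omega) h3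
        have h9 : 2 * m < (2 * m + 1) ^ ((m + 1) / 2) := by
          calc 2 * m < 2 * m + 1 := by omega
            _ = (2 * m + 1) ^ 1 := (pow_one _).symm
            _ ≤ (2 * m + 1) ^ ((m + 1) / 2) := Nat.pow_le_pow_right (by omega) (by omega)
        refine h5 (2 * m) (by omega) h9 (h n L (2 * m + 1) ?_ (by omega) h1 h2 h4)
        rw [hn]
        have : 0 < (2 * m + 1) ^ (m / 2) := Nat.pow_pos (by omega)
        omega
    · rintro rfl
      intro n L k _ _ h1 h2 h3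
      exact m_one n k L h1 h2 h3

end Pool.Agent.Results.MP_dc8297_co.EveryDegreeExponentialGap
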